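import Pool.Agent.Helper85.IA.St

/-!
# Module KUB of project IA, part N: the cover indicators are 0 or 1
-/

set_option autoImplicit false

namespace Pool.Agent.Helper72.IA85

open Finset Pool.Agent.Helper93.IA Pool.Agent.Helper85.IA

private theorem sum_ind {J : Type} [Fintype J] (P : J → Prop) [DecidablePred P]
    [Decidable (∃ j, P j)] (h : ∀ i j, P i → P j → i = j) :
    (∑ j, (if P j then (1 : ℝ) else 0)) = if ∃ j, P j then 1 else 0 := by
  by_cases hex : ∃ j, P j
  · rw [if_pos hex]
    obtain ⟨i, hi⟩ := hex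
    rw [Finset.sum_eq_single i (fun j _ hj => if_neg (fun hPj => hj (h j i hPj hi)))
      (fun hn => absurd (Finset.mem_univ i) hn), if_pos hi]
  · rw [if_neg hex]
    exact Finset.sum_eq_zero fun j _ => if_neg fun hj => hex ⟨j, hj⟩

theorem hKUB : StKUB := by
  intro α β γ _ _ _ _ _ _ σ
  refine ⟨fun a b => ?_, fun b c => ?_, fun c a => ?_⟩
  · refine sum_ind (fun c => Us σ a b c) ?_
    intro i j hi hj
    exact Option.some.inj (hi.1.symm.trans hj.1)
  · refine sum_ind (fun a => Us σ a b c) ?_
    intro i j hi hj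
    by_contra hne
    exact hi.2.2 j (fun h => hne h.symm) hj.1
  · refine sum_ind (fun b => Us σ a b c) ?_
    intro i j hi hj
    by_contra hne
    exact hi.2.1 j (fun h => hne h.symm) hj.1

end Pool.Agent.Helper72.IA85
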